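import Pool.Agent.Lib.MuZ.PDefs

/-!
# MP_d0239a_nt: the torsion field of the elliptic curve with complex multiplication by `ℤ[(1 + √-7)/2]`

`E : y² + xy = x³ - x² - 2x - 1` (the curve 49a1, `j = -3375`).
-/

noncomputable section

namespace Pool.Agent.MuP

/-- The elliptic curve `E : y² + xy = x³ - x² - 2x - 1`, over `Ω`. -/
def curve49 : WeierstrassCurve Omega := ⟨1, -1, 0, -2, -1⟩

open Classical in
/-- `a` is a coordinate of an `Ω`-rational torsion point `(x, y)` of `E`: `n (x, y) = 0` for some
`n > 0` (the group law is the one of Mathlib). -/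
def TorCoord (a : Omega) : Prop :=
  ∃ (x y : Omega) (h : curve49.toAffine.Nonsingular x y) (n : ℕ),
    0 < n ∧ n • (WeierstrassCurve.Affine.Point.some x y h) = 0 ∧ (a = x ∨ a = y)

/-- The torsion field of `E`: the field generated over `ℚ` by the coordinates of all torsion points. -/
def TorField : Fd :=
  IntermediateField.adjoin ℚ {a : AlgebraicClosure ℚ | TorCoord a}

end Pool.Agent.MuP
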