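import Pool.Agent.Lib.DI.Pub.Defs
import Pool.Agent.Lib.DI.Top
import Pool.Agent.Lib.MuZ.Pub

/-!
# MP_d0239a_nt: from `ThmDI` to the public form
-/

noncomputable section

namespace Pool.Agent.MuP

theorem torField_eq : TorField = DI.TorField := rfl

theorem torsionField_of (h : DI.ThmDI) (F F₀ L : Fd) (hL : IsNF L) (h0 : F₀ ≤ TorField)
    (h0L : F₀ ≤ L) (hFL : F ≤ L) (hGal : GalOver F₀ L) (a : ℕ) (hdeg : deg L = 2 ^ a * deg F₀) :
    XFinGen 2 (cyc 2 F) :=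
  haveI : Fact (Nat.Prime 2) := ⟨Nat.prime_two⟩
  (XFinGen_cyc_iff 2 F).2 (DI.ext2 h F F₀ L hL h0 h0L hFL hGal a hdeg)

end Pool.Agent.MuP
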